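import Pool.Agent.Helper75.OE.GoalsA

set_option autoImplicit false

/-!
Project OE (MP_fc0446_an), packet CNT: the number of the preimages of an update.
-/

namespace Pool.Agent.Helper32.OE

open Pool.Agent.Helper73.OE Pool.Agent.Helper73.OE.Sys Pool.Agent.Helper75.OE

section

variable {H S L : Type} [Group H] (X : Sys H S L)

theorem tau_inj {a b : L} (h : X.tau a = X.tau b) : a = b := by
  rw [← X.tau_tau a, h, X.tau_tau]

theorem mem_AS [Fintype L] (P : Par) (O : Edges H S) (f : Cfg H S L) (v : H) (p : S) (y : L)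
    (i : Fin P.J × L) :
    i ∈ X.AS P O f v p y ↔ X.Av O P.M f (2 * (i.1 : ℕ) + 1) v p y i.2 := by
  simp only [AS, Finset.mem_filter, Finset.mem_univ, true_and]

theorem ma_univ {O : Edges H S} (hS : X.Sym O) {v : H} {s : S} (hO : ¬ O v s) {f : Cfg H S L}
    (h1 : X.MA O (X.Sd v s) f) (h2 : X.MA O (X.Sd (X.nb v s) (X.bar s)) f) :
    X.MA O Set.univ f := by
  intro z r _ _ hz
  by_cases hz1 : z ∈ X.Sd v s
  · by_cases hz2 : X.nb z r ∈ X.Sd v s
    · exact h1 z r hz1 hz2 hz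
    · obtain ⟨rfl, rfl⟩ := X.Sd_edge hz1 hz2
      exact absurd hz hO
  · by_cases hz2 : X.nb z r ∈ X.Sd v s
    · have hz3 : X.nb (X.nb z r) (X.bar r) ∉ X.Sd v s := by
        rw [X.nb_bar]
        exact hz1
      obtain ⟨h3, h4⟩ := X.Sd_edge hz2 hz3
      have h5 := (hS z r).1 hz
      rw [h3, h4] at h5
      exact absurd h5 hO
    · exact h2 z r (X.notMem_Sd.1 hz1) (X.notMem_Sd.1 hz2) hz

theorem ma_congr {O : Edges H S} {A : Set H} {f g : Cfg H S L} (h : X.MA O A f)
    (hg : ∀ z ∈ A, g z = f z) : X.MA O A g := by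
  intro z r h1 h2 h3
  have h4 := h z r h1 h2 h3
  unfold Mt at h4 ⊢
  rw [hg _ h1, hg _ h2]
  exact h4

theorem ma_sub {O : Edges H S} {A : Set H} {f : Cfg H S L} (h : X.MA O Set.univ f) :
    X.MA O A f := fun z r _ _ h3 ↦ h z r (Set.mem_univ _) (Set.mem_univ _) h3

/-- A cheap move. -/
theorem move (h1 : A_TLOC) (h2 : A_TRM) (h3 : A_TRI) [Fintype L] (P : Par) {O : Edges H S}
    (hS : X.Sym O) {v : H} {s : S} (hO : ¬ O v s) {f : Cfg H S L} (hM : X.MA O Set.univ f)
    {y : L} (hy : y ≠ f v s) {i : Fin P.J × L} (hi : i ∈ X.AS P O f v s y) :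
    X.TRi P O i v s y f v s = y ∧ (∀ z, z ∉ X.Sd v s → X.TRi P O i v s y f z = f z) ∧
      X.MA O Set.univ (X.TRi P O i v s y f) ∧
      i ∈ X.AS P O (X.TRi P O i v s y f) v s (f v s) ∧
      X.TRi P O i v s (f v s) (X.TRi P O i v s y f) = f := by
  rw [mem_AS] at hi
  have hM1 : X.MA O (X.Sd v s) f := ma_sub X hM
  obtain ⟨a1, a2⟩ := h2 H S L X O P.M (2 * (i.1 : ℕ) + 1) v s y i.2 f hS hy hM1 hi
  obtain ⟨b1, b2⟩ := h3 H S L X O P.M (2 * (i.1 : ℕ) + 1) v s y i.2 f hS hy hM1 hi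
  obtain ⟨-, c1⟩ := h1 H S L X O O P.M (2 * (i.1 : ℕ) + 1) v s y i.2 f f hy hM1
    (fun _ _ ↦ rfl) (fun _ _ _ _ ↦ Iff.rfl)
  obtain ⟨c2, -⟩ := c1 hi
  refine ⟨a1, c2, ?_, ?_, b2⟩
  · refine ma_univ X hS hO a2 (ma_congr X (ma_sub X hM) ?_)
    intro z hz
    exact c2 z (X.notMem_Sd.2 hz)
  · rw [mem_AS]
    exact b1

/-- A flip on the side of `nb v s`. -/
theorem flip2 (h1 : A_FREC) (h2 : A_FLM) (h3 : A_FLI) {O : Edges H S}
    (hS : X.Sym O) {v : H} {s : S} (hO : ¬ O v s) {f : Cfg H S L} (hM : X.MA O Set.univ f)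
    {y : L} (hy : y ≠ f (X.nb v s) (X.bar s)) :
    X.flip O (X.nb v s) (X.bar s) y f (X.nb v s) (X.bar s) = y ∧
      (∀ z ∈ X.Sd v s, X.flip O (X.nb v s) (X.bar s) y f z = f z) ∧
      X.MA O Set.univ (X.flip O (X.nb v s) (X.bar s) y f) ∧
      X.flip O (X.nb v s) (X.bar s) (f (X.nb v s) (X.bar s))
        (X.flip O (X.nb v s) (X.bar s) y f) = f := by
  have hM1 : X.MA O (X.Sd (X.nb v s) (X.bar s)) f := ma_sub X hM
  obtain ⟨a1, a2, -, -⟩ := h1 H S L X O (X.nb v s) (X.bar s) y f hy hM1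
  have b := h2 H S L X O (X.nb v s) (X.bar s) y f hS hy hM1
  obtain ⟨-, c⟩ := h3 H S L X O (X.nb v s) (X.bar s) y f hS hy hM1
  have a3 : ∀ z ∈ X.Sd v s, X.flip O (X.nb v s) (X.bar s) y f z = f z :=
    fun z hz ↦ a2 z (fun hz' ↦ (X.notMem_Sd.2 hz') hz)
  refine ⟨?_, a3, ?_, c⟩
  · classical
    rw [a1, Equiv.trans_apply, Equiv.swap_apply_left]
  · exact ma_univ X hS hO (ma_congr X (ma_sub X hM) a3) b

theorem as_eq (h1 : A_TLOC) [Fintype L] (P : Par) {O : Edges H S} {v : H} {s : S}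
    {f g : Cfg H S L} (hM : X.MA O Set.univ f) {y : L} (hy : y ≠ f v s)
    (hg : ∀ z ∈ X.Sd v s, g z = f z) : X.AS P O g v s y = X.AS P O f v s y := by
  ext i
  rw [mem_AS, mem_AS]
  exact (h1 H S L X O O P.M (2 * (i.1 : ℕ) + 1) v s y i.2 f g hy (ma_sub X hM) hg
    (fun _ _ _ _ ↦ Iff.rfl)).1

theorem tri_eq (h1 : A_TLOC) [Fintype L] (P : Par) {O : Edges H S} {v : H} {s : S}
    {f g : Cfg H S L} (hM : X.MA O Set.univ f) {y : L} (hy : y ≠ f v s)
    (hg : ∀ z ∈ X.Sd v s, g z = f z) {i : Fin P.J × L} (hi : i ∈ X.AS P O f v s y) :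
    ∀ z ∈ X.Sd v s, X.TRi P O i v s y g z = X.TRi P O i v s y f z := by
  rw [mem_AS] at hi
  exact ((h1 H S L X O O P.M (2 * (i.1 : ℕ) + 1) v s y i.2 f g hy (ma_sub X hM) hg
    (fun _ _ _ _ ↦ Iff.rfl)).2 hi).2

/-- The condition for a cheap update depends only on the side of `v`. -/
theorem cheap_iff (h1 : A_TLOC) (h2 : A_TRM) (h3 : A_TRI) (h4 : A_PICK) [Fintype L] (P : Par)
    {O : Edges H S} (hS : X.Sym O) {v : H} {s : S} (hO : ¬ O v s) {f g : Cfg H S L}
    (hM : X.MA O Set.univ f) {y : L} (hy : y ≠ f v s) (hg : ∀ z ∈ X.Sd v s, g z = f z)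
    (hyg : X.tau (g (X.nb v s) (X.bar s)) = y) (u : ℕ) (i : Fin P.J × L) :
    X.Cheap P O v s u g i ↔ (pick P.cap (X.AS P O f v s y) u = some i ∧
      (X.AS P O (X.TRi P O i v s y f) v s (f v s)).card ≤ P.cap) := by
  unfold Cheap
  rw [hyg, as_eq X h1 P hM hy hg, hg v (X.self_mem_Sd v s)]
  constructor
  · rintro ⟨a1, a2⟩
    refine ⟨a1, ?_⟩
    have hi := ((h4 _ P.cap (X.AS P O f v s y)).1 u i a1).1
    obtain ⟨b1, -, b3, -, -⟩ := move X h1 h2 h3 P hS hO hM hy hi
    rw [← as_eq X h1 P b3 (y := f v s) (by rw [b1]; exact hy.symm)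
      (tri_eq X h1 P hM hy hg hi)]
    exact a2
  · rintro ⟨a1, a2⟩
    refine ⟨a1, ?_⟩
    have hi := ((h4 _ P.cap (X.AS P O f v s y)).1 u i a1).1
    obtain ⟨b1, -, b3, -, -⟩ := move X h1 h2 h3 P hS hO hM hy hi
    rw [as_eq X h1 P b3 (y := f v s) (by rw [b1]; exact hy.symm)
      (tri_eq X h1 P hM hy hg hi)]
    exact a2

theorem upd_same [Fintype L] (P : Par) (O : Edges H S) (v : H) (s : S) (u : ℕ) (f : Cfg H S L)
    (h : X.tau (f (X.nb v s) (X.bar s)) = f v s) : X.Upd P O v s u f = f := by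
  unfold Upd
  rw [if_pos h]

theorem upd_cheap [Fintype L] (P : Par) (O : Edges H S) (v : H) (s : S) (u : ℕ)
    (f : Cfg H S L) (h : X.tau (f (X.nb v s) (X.bar s)) ≠ f v s) (i : Fin P.J × L)
    (hi : X.Cheap P O v s u f i) :
    X.Upd P O v s u f = X.TRi P O i v s (X.tau (f (X.nb v s) (X.bar s))) f := by
  unfold Upd
  have hex : ∃ i, X.Cheap P O v s u f i := ⟨i, hi⟩
  rw [if_neg h, dif_pos hex]
  have h1 := hex.choose_spec.1
  have h2 := hi.1
  rw [h1] at h2
  rw [Option.some.inj h2]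

theorem upd_fall [Fintype L] (P : Par) (O : Edges H S) (v : H) (s : S) (u : ℕ)
    (f : Cfg H S L) (h : X.tau (f (X.nb v s) (X.bar s)) ≠ f v s)
    (hi : ¬ ∃ i, X.Cheap P O v s u f i) :
    X.Upd P O v s u f = X.flip O (X.nb v s) (X.bar s) (X.tau (f v s)) f := by
  unfold Upd
  rw [if_neg h, dif_neg hi]

end

open Classical in
/-- The enumeration of the preimages. -/
noncomputable def enumP {H S L : Type} [Group H] [Fintype L] (X : Sys H S L) (P : Par)
    (O : Edges H S) (v : H) (s : S) (f' : Cfg H S L) (x : L × Fin P.cap) : Cfg H S L × Fin P.cap :=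
  if x.1 = f' v s then (f', x.2)
  else if h : ∃ i, pick P.cap (X.AS P O f' v s x.1) x.2 = some i ∧
      (X.AS P O (X.TRi P O i v s x.1 f') v s (f' v s)).card ≤ P.cap then
    (X.TRi P O h.choose v s x.1 f',
      if h' : ∃ u' : Fin P.cap, pick P.cap
        (X.AS P O (X.TRi P O h.choose v s x.1 f') v s (f' v s)) u' = some h.choose then h'.choose
      else x.2)
  else (X.flip O (X.nb v s) (X.bar s) (X.tau x.1) f', x.2)

theorem cnt (h1 : A_FREC) (h2 : A_FLM) (h3 : A_FLI) (h4 : A_TLOC) (h5 : A_TRM) (h6 : A_TRI)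
    (h7 : A_PICK) : A_CNT := by
  classical
  intro H S L _ _ X P O v s f' hS hO hMA
  have hM : X.MA O Set.univ f' := fun z r _ _ h ↦ hMA z r (Set.mem_univ _) (Set.mem_univ _)
    (Or.inl h)
  have hmt : f' (X.nb v s) (X.bar s) = X.tau (f' v s) :=
    hMA v s (Set.mem_univ _) (Set.mem_univ _) (Or.inr (Or.inl rfl))
  have pk1 := fun A : Finset (Fin P.J × L) ↦ (h7 (Fin P.J × L) P.cap A).1
  have pk2 := fun A : Finset (Fin P.J × L) ↦ (h7 (Fin P.J × L) P.cap A).2
  -- the three cases of the enumeration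
  have e1 : ∀ u : Fin P.cap, enumP X P O v s f' (f' v s, u) = (f', u) := by
    intro u
    unfold enumP
    rw [if_pos rfl]
  have e3 : ∀ (a0 : L) (u : Fin P.cap), a0 ≠ f' v s →
      (¬ ∃ i, pick P.cap (X.AS P O f' v s a0) u = some i ∧
        (X.AS P O (X.TRi P O i v s a0 f') v s (f' v s)).card ≤ P.cap) →
      enumP X P O v s f' (a0, u) = (X.flip O (X.nb v s) (X.bar s) (X.tau a0) f', u) := by
    intro a0 u ha hn
    unfold enumP
    rw [if_neg ha, dif_neg hn]
  have e2 : ∀ (a0 : L) (u : Fin P.cap) (i : Fin P.J × L) (u' : Fin P.cap), a0 ≠ f' v s →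
      pick P.cap (X.AS P O f' v s a0) u = some i →
      (X.AS P O (X.TRi P O i v s a0 f') v s (f' v s)).card ≤ P.cap →
      pick P.cap (X.AS P O (X.TRi P O i v s a0 f') v s (f' v s)) u' = some i →
      enumP X P O v s f' (a0, u) = (X.TRi P O i v s a0 f', u') := by
    intro a0 u i u' ha hp hc hu
    have hex : ∃ i, pick P.cap (X.AS P O f' v s a0) u = some i ∧
        (X.AS P O (X.TRi P O i v s a0 f') v s (f' v s)).card ≤ P.cap := ⟨i, hp, hc⟩
    have hi : hex.choose = i := Option.some.inj (hex.choose_spec.1.symm.trans hp)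
    have hex' : ∃ u' : Fin P.cap, pick P.cap
        (X.AS P O (X.TRi P O hex.choose v s a0 f') v s (f' v s)) u' = some hex.choose := by
      rw [hi]
      exact ⟨u', hu⟩
    have hu' : hex'.choose = u' := by
      have hsp := hex'.choose_spec
      have hmem := (pk1 _ _ _ hu).1
      obtain ⟨w, -, hw⟩ := pk2 _ hc i hmem
      have g1 : (u' : ℕ) = w := hw _ hu
      have g2 : (hex'.choose : ℕ) = w := by
        apply hw
        rw [← hi]
        exact hsp
      exact Fin.ext (g2.trans g1.symm)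
    unfold enumP
    rw [if_neg ha, dif_pos hex, dif_pos hex', hu', hi]
  -- description of the cheap preimages
  have d2 : ∀ (a0 : L) (u : Fin P.cap) (i : Fin P.J × L), a0 ≠ f' v s →
      pick P.cap (X.AS P O f' v s a0) u = some i →
      (X.AS P O (X.TRi P O i v s a0 f') v s (f' v s)).card ≤ P.cap →
      ∃ u' : Fin P.cap,
        pick P.cap (X.AS P O (X.TRi P O i v s a0 f') v s (f' v s)) u' = some i := by
    intro a0 u i ha hp hc
    have hi := (pk1 _ _ _ hp).1
    obtain ⟨-, -, -, m4, -⟩ := move X h4 h5 h6 P hS hO hM ha hi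
    obtain ⟨w, hw, -⟩ := pk2 _ hc i m4
    have hlt := (pk1 _ _ _ hw).2.2
    exact ⟨⟨w, hlt.trans_le hc⟩, hw⟩
  have tauf : X.tau (f' (X.nb v s) (X.bar s)) = f' v s := by rw [hmt, X.tau_tau]
  have wnot : X.nb v s ∉ X.Sd v s := X.nb_notMem_Sd v s
  have vin : v ∈ X.Sd v s := X.self_mem_Sd v s
  have taune : ∀ a0 : L, a0 ≠ f' v s → X.tau a0 ≠ f' (X.nb v s) (X.bar s) := by
    intro a0 ha hc
    rw [hmt] at hc
    exact ha (tau_inj X hc)
  have hset : {x : Cfg H S L × Fin P.cap | X.MA O Set.univ x.1 ∧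
      X.Upd P O v s (x.2 : ℕ) x.1 = f'} = enumP X P O v s f' '' Set.univ := by
    ext x
    obtain ⟨f, u⟩ := x
    constructor
    · rintro ⟨hMf, hU⟩
      have hMf' : X.MA O Set.univ f := hMf
      have hU' : X.Upd P O v s (u : ℕ) f = f' := hU
      by_cases c1 : X.tau (f (X.nb v s) (X.bar s)) = f v s
      · rw [upd_same X P O v s u f c1] at hU'
        subst hU'
        exact ⟨(f v s, u), Set.mem_univ _, e1 u⟩
      · by_cases c2 : ∃ i, X.Cheap P O v s (u : ℕ) f i
        · obtain ⟨i, hi⟩ := c2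
          rw [upd_cheap X P O v s u f c1 i hi] at hU'
          obtain ⟨p1, p2⟩ := hi
          have hmem := (pk1 _ _ _ p1).1
          obtain ⟨m1, m2, m3, m4, m5⟩ := move X h4 h5 h6 P hS hO hMf' c1 hmem
          rw [hU'] at m1 m2 m3 m4 m5 p2
          -- `f' v s = tau (f w)`
          have hcard : (X.AS P O f v s (f' v s)).card ≤ P.cap := by
            rw [m1]
            exact (pk1 _ _ _ p1).2.1
          obtain ⟨w, hw, -⟩ := pk2 _ p2 i m4
          have hwlt : w < P.cap := (pk1 _ _ _ hw).2.2.trans_le p2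
          refine ⟨(f v s, ⟨w, hwlt⟩), Set.mem_univ _, ?_⟩
          have hne : f v s ≠ f' v s := by
            rw [m1]
            exact fun h ↦ c1 h.symm
          rw [e2 (f v s) ⟨w, hwlt⟩ i u hne hw (by rw [m5]; exact hcard)
            (by rw [m5, m1]; exact p1), m5]
        · rw [upd_fall X P O v s u f c1 c2] at hU'
          have c1' : X.tau (f v s) ≠ f (X.nb v s) (X.bar s) := by
            intro h
            apply c1
            rw [← h, X.tau_tau]
          obtain ⟨q1, q2, q3, q4⟩ := flip2 X h1 h2 h3 hS hO hMf' c1'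
          rw [hU'] at q1 q2 q3 q4
          have hv : f' v s = f v s := by rw [q2 v vin]
          have hne : X.tau (f (X.nb v s) (X.bar s)) ≠ f' v s := by
            rw [hv]
            exact c1
          refine ⟨(X.tau (f (X.nb v s) (X.bar s)), u), Set.mem_univ _, ?_⟩
          rw [e3 _ u hne, X.tau_tau, q4]
          rintro ⟨i, hi⟩
          apply c2
          refine ⟨i, ?_⟩
          rw [cheap_iff X h4 h5 h6 h7 P hS hO hM hne (fun z hz ↦ (q2 z hz).symm) rfl]
          exact hi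
    · rintro ⟨⟨a0, u0⟩, -, hx⟩
      by_cases ha : a0 = f' v s
      · subst ha
        rw [e1 u0] at hx
        obtain ⟨rfl, rfl⟩ := Prod.mk.inj hx
        exact ⟨hM, upd_same X P O v s _ _ tauf⟩
      · by_cases hc : ∃ i, pick P.cap (X.AS P O f' v s a0) u0 = some i ∧
            (X.AS P O (X.TRi P O i v s a0 f') v s (f' v s)).card ≤ P.cap
        · obtain ⟨i, hp, hcd⟩ := hc
          obtain ⟨u', hu'⟩ := d2 a0 u0 i ha hp hcd
          rw [e2 a0 u0 i u' ha hp hcd hu'] at hx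
          obtain ⟨rfl, rfl⟩ := Prod.mk.inj hx
          have hi := (pk1 _ _ _ hp).1
          obtain ⟨m1, m2, m3, m4, m5⟩ := move X h4 h5 h6 P hS hO hM ha hi
          refine ⟨m3, ?_⟩
          have t1 : X.tau (X.TRi P O i v s a0 f' (X.nb v s) (X.bar s)) = f' v s := by
            rw [m2 _ wnot, tauf]
          have t2 : X.tau (X.TRi P O i v s a0 f' (X.nb v s) (X.bar s)) ≠
              X.TRi P O i v s a0 f' v s := by
            rw [t1, m1]
            exact fun h ↦ ha h.symm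
          have t3 : X.Cheap P O v s u' (X.TRi P O i v s a0 f') i := by
            unfold Cheap
            rw [t1, m1, m5]
            exact ⟨hu', (pk1 _ _ _ hp).2.1⟩
          show X.Upd P O v s (u' : ℕ) (X.TRi P O i v s a0 f') = f'
          rw [upd_cheap X P O v s u' _ t2 i t3, t1, m5]
        · rw [e3 a0 u0 ha hc] at hx
          obtain ⟨rfl, rfl⟩ := Prod.mk.inj hx
          obtain ⟨q1, q2, q3, q4⟩ := flip2 X h1 h2 h3 hS hO hM (taune a0 ha)
          refine ⟨q3, ?_⟩
          have t1 : X.tau (X.flip O (X.nb v s) (X.bar s) (X.tau a0) f' (X.nb v s) (X.bar s)) =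
              a0 := by
            rw [q1, X.tau_tau]
          have t0 : X.flip O (X.nb v s) (X.bar s) (X.tau a0) f' v s = f' v s := by
            rw [q2 v vin]
          have t2 : X.tau (X.flip O (X.nb v s) (X.bar s) (X.tau a0) f' (X.nb v s) (X.bar s)) ≠
              X.flip O (X.nb v s) (X.bar s) (X.tau a0) f' v s := by
            rw [t1, t0]
            exact ha
          have t3 : ¬ ∃ i, X.Cheap P O v s (u0 : ℕ)
              (X.flip O (X.nb v s) (X.bar s) (X.tau a0) f') i := by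
            rintro ⟨i, hi⟩
            rw [cheap_iff X h4 h5 h6 h7 P hS hO hM ha q2 t1] at hi
            exact hc ⟨i, hi⟩
          show X.Upd P O v s (u0 : ℕ) (X.flip O (X.nb v s) (X.bar s) (X.tau a0) f') = f'
          rw [upd_fall X P O v s u0 _ t2 t3, t0, ← hmt, q4]
  have hinj : Function.Injective (enumP X P O v s f') := by
    -- the label is recovered
    have hk : ∀ x : L × Fin P.cap,
        (if (enumP X P O v s f' x).1 v s = f' v s then
          X.tau ((enumP X P O v s f' x).1 (X.nb v s) (X.bar s))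
        else (enumP X P O v s f' x).1 v s) = x.1 := by
      rintro ⟨a0, u0⟩
      by_cases ha : a0 = f' v s
      · subst ha
        rw [e1 u0]
        show (if f' v s = f' v s then X.tau (f' (X.nb v s) (X.bar s)) else f' v s) = f' v s
        rw [if_pos rfl, tauf]
      · by_cases hc : ∃ i, pick P.cap (X.AS P O f' v s a0) u0 = some i ∧
            (X.AS P O (X.TRi P O i v s a0 f') v s (f' v s)).card ≤ P.cap
        · obtain ⟨i, hp, hcd⟩ := hc
          obtain ⟨u', hu'⟩ := d2 a0 u0 i ha hp hcd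
          have hi := (pk1 _ _ _ hp).1
          obtain ⟨m1, m2, m3, m4, m5⟩ := move X h4 h5 h6 P hS hO hM ha hi
          rw [e2 a0 u0 i u' ha hp hcd hu']
          show (if X.TRi P O i v s a0 f' v s = f' v s then
            X.tau (X.TRi P O i v s a0 f' (X.nb v s) (X.bar s))
            else X.TRi P O i v s a0 f' v s) = a0
          rw [m1, if_neg ha]
        · obtain ⟨q1, q2, q3, q4⟩ := flip2 X h1 h2 h3 hS hO hM (taune a0 ha)
          rw [e3 a0 u0 ha hc]
          show (if X.flip O (X.nb v s) (X.bar s) (X.tau a0) f' v s = f' v s then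
            X.tau (X.flip O (X.nb v s) (X.bar s) (X.tau a0) f' (X.nb v s) (X.bar s))
            else X.flip O (X.nb v s) (X.bar s) (X.tau a0) f' v s) = a0
          rw [if_pos (by rw [q2 v vin]), q1, X.tau_tau]
    rintro ⟨a0, u0⟩ ⟨a1, u1⟩ hxy
    have hfst : a0 = a1 := by
      have g0 := hk (a0, u0)
      have g1 := hk (a1, u1)
      rw [hxy] at g0
      exact g0.symm.trans g1
    subst hfst
    congr 1
    by_cases ha : a0 = f' v s
    · subst ha
      rw [e1 u0, e1 u1] at hxy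
      exact (Prod.mk.inj hxy).2
    · by_cases hc : ∃ i, pick P.cap (X.AS P O f' v s a0) u0 = some i ∧
          (X.AS P O (X.TRi P O i v s a0 f') v s (f' v s)).card ≤ P.cap
      · obtain ⟨i, hp, hcd⟩ := hc
        obtain ⟨u', hu'⟩ := d2 a0 u0 i ha hp hcd
        have hi := (pk1 _ _ _ hp).1
        obtain ⟨m1, m2, m3, m4, m5⟩ := move X h4 h5 h6 P hS hO hM ha hi
        by_cases hc1 : ∃ i, pick P.cap (X.AS P O f' v s a0) u1 = some i ∧
            (X.AS P O (X.TRi P O i v s a0 f') v s (f' v s)).card ≤ P.cap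
        · obtain ⟨i1, hp1, hcd1⟩ := hc1
          obtain ⟨u1', hu1'⟩ := d2 a0 u1 i1 ha hp1 hcd1
          rw [e2 a0 u0 i u' ha hp hcd hu', e2 a0 u1 i1 u1' ha hp1 hcd1 hu1'] at hxy
          obtain ⟨k1, k2⟩ := Prod.mk.inj hxy
          have k3 : i = i1 := by
            rw [← k1, ← k2] at hu1'
            exact Option.some.inj (hu'.symm.trans hu1')
          subst k3
          obtain ⟨w, -, hw⟩ := pk2 _ (pk1 _ _ _ hp).2.1 i hi
          exact Fin.ext ((hw _ hp).trans (hw _ hp1).symm)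
        · exfalso
          obtain ⟨q1, q2, q3, q4⟩ := flip2 X h1 h2 h3 hS hO hM (taune a0 ha)
          rw [e2 a0 u0 i u' ha hp hcd hu', e3 a0 u1 ha hc1] at hxy
          obtain ⟨k1, -⟩ := Prod.mk.inj hxy
          apply ha
          rw [← m1, k1, q2 v vin]
      · by_cases hc1 : ∃ i, pick P.cap (X.AS P O f' v s a0) u1 = some i ∧
            (X.AS P O (X.TRi P O i v s a0 f') v s (f' v s)).card ≤ P.cap
        · exfalso
          obtain ⟨i1, hp1, hcd1⟩ := hc1
          obtain ⟨u1', hu1'⟩ := d2 a0 u1 i1 ha hp1 hcd1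
          have hi1 := (pk1 _ _ _ hp1).1
          obtain ⟨m1, m2, m3, m4, m5⟩ := move X h4 h5 h6 P hS hO hM ha hi1
          obtain ⟨q1, q2, q3, q4⟩ := flip2 X h1 h2 h3 hS hO hM (taune a0 ha)
          rw [e2 a0 u1 i1 u1' ha hp1 hcd1 hu1', e3 a0 u0 ha hc] at hxy
          obtain ⟨k1, -⟩ := Prod.mk.inj hxy
          apply ha
          rw [← m1, ← k1, q2 v vin]
        · rw [e3 a0 u0 ha hc, e3 a0 u1 ha hc1] at hxy
          exact (Prod.mk.inj hxy).2
  rw [hset, Set.ncard_image_of_injective _ hinj, Set.ncard_univ, Nat.card_eq_fintype_card,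
    Fintype.card_prod, Fintype.card_fin]

end Pool.Agent.Helper32.OE
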