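import Pool.Agent.Helper35.OE.GoalsE

set_option autoImplicit false

/-!
Project OE (MP_fc0446_an), packet E-MLIM: the limit configuration is measurable and equivariant.
-/

open MeasureTheory
open scoped ENNReal

namespace Pool.Agent.Helper32.OE

open Pool.Agent.Helper73.OE Pool.Agent.Helper35.OE

theorem limC_of_eventually {H S L : Type} [Group H] [Fintype L] (X : Sys H S L) (P : ℕ → Par)
    (ε : ℕ → ℝ) (w : Om H S L) (v : H) (f : S ≃ L)
    (h : ∀ᶠ i : ℕ in Filter.atTop, traj X P ε w i v = f) : limC X P ε w v = f := by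
  have hex : ∃ f : S ≃ L, ∀ᶠ i : ℕ in Filter.atTop, traj X P ε w i v = f := ⟨f, h⟩
  unfold limC
  rw [dif_pos hex]
  obtain ⟨i, h1, h2⟩ := (hex.choose_spec.and h).exists
  rw [← h1, ← h2]

theorem limC_of_not {H S L : Type} [Group H] [Fintype L] (X : Sys H S L) (P : ℕ → Par)
    (ε : ℕ → ℝ) (w : Om H S L) (v : H)
    (h : ¬ ∃ f : S ≃ L, ∀ᶠ i : ℕ in Filter.atTop, traj X P ε w i v = f) :
    limC X P ε w v = X.e0 := by
  unfold limC
  rw [dif_neg h]

theorem gMLIM : G_MLIM := by
  intro H S L _ _ _ _ X P ε hm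
  refine measurable_pi_iff.2 fun v ↦ ?_
  have hE : ∀ f : S ≃ L,
      MeasurableSet {w : Om H S L | ∀ᶠ i : ℕ in Filter.atTop, traj X P ε w i v = f} := by
    intro f
    have h1 : {w : Om H S L | ∀ᶠ i : ℕ in Filter.atTop, traj X P ε w i v = f} =
        ⋃ N : ℕ, ⋂ i : ℕ, ⋂ _ : N ≤ i, {w : Om H S L | traj X P ε w i v = f} := by
      ext w
      simp only [Set.mem_iUnion, Set.mem_iInter]
      exact Filter.eventually_atTop
    rw [h1]
    refine MeasurableSet.iUnion fun N ↦ MeasurableSet.iInter fun i ↦ MeasurableSet.iInter fun _ ↦ ?_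
    have h2 : Measurable fun w : Om H S L => traj X P ε w i v := measurable_pi_iff.1 (hm i) v
    exact h2 (MeasurableSpace.measurableSet_top (s := {f}))
  have : Finite (S ≃ L) := by
    classical
    exact Finite.of_injective (fun e : S ≃ L ↦ (e : S → L)) DFunLike.coe_injective
  refine measurable_to_countable' fun f ↦ ?_
  have hset : (fun w : Om H S L => limC X P ε w v) ⁻¹' {f} =
      {w : Om H S L | ∀ᶠ i : ℕ in Filter.atTop, traj X P ε w i v = f} ∪
        ((⋃ g : S ≃ L, {w : Om H S L | ∀ᶠ i : ℕ in Filter.atTop, traj X P ε w i v = g})ᶜ ∩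
          {_w | X.e0 = f}) := by
    ext w
    constructor
    · intro hw
      have hw' : limC X P ε w v = f := hw
      by_cases hex : ∃ g : S ≃ L, ∀ᶠ i : ℕ in Filter.atTop, traj X P ε w i v = g
      · obtain ⟨g, hg⟩ := hex
        have h3 := limC_of_eventually X P ε w v g hg
        left
        rw [← hw', h3]
        exact hg
      · right
        refine ⟨?_, ?_⟩
        · intro hc
          obtain ⟨g, hg⟩ := Set.mem_iUnion.1 hc
          exact hex ⟨g, hg⟩
        · show X.e0 = f
          rw [← hw', limC_of_not X P ε w v hex]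
    · rintro (hw | ⟨hw, h0⟩)
      · exact limC_of_eventually X P ε w v f hw
      · have hex : ¬ ∃ g : S ≃ L, ∀ᶠ i : ℕ in Filter.atTop, traj X P ε w i v = g := by
          rintro ⟨g, hg⟩
          exact hw (Set.mem_iUnion.2 ⟨g, hg⟩)
        have h0' : X.e0 = f := h0
        show limC X P ε w v = f
        rw [limC_of_not X P ε w v hex, h0']
  rw [hset]
  refine (hE f).union (((MeasurableSet.iUnion fun g ↦ hE g).compl).inter ?_)
  exact MeasurableSet.const _

theorem gELIM : G_ELIM := by
  intro hB H S L _ _ X P ε g w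
  have h1 : ∀ i, traj X P ε (actOm g w) i = Sys.actC g (traj X P ε w i) := by
    intro i
    induction i with
    | zero => rfl
    | succ i ih =>
      show X.batch (P i) (ε i) (ε (i + 1)) (traj X P ε (actOm g w) i) (Sys.actE g w.1.2)
        (Sys.actE g (w.2 i)) = Sys.actC g (X.batch (P i) (ε i) (ε (i + 1)) (traj X P ε w i) w.1.2
        (w.2 i))
      rw [ih]
      exact hB X (P i) (ε i) (ε (i + 1)) g _ _ _
  refine ⟨h1, ?_⟩
  funext v
  show limC X P ε (actOm g w) v = limC X P ε w (g⁻¹ * v)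
  have h2 : ∀ i, traj X P ε (actOm g w) i v = traj X P ε w i (g⁻¹ * v) := by
    intro i
    rw [h1 i]
    rfl
  by_cases hex : ∃ f : S ≃ L, ∀ᶠ i : ℕ in Filter.atTop, traj X P ε w i (g⁻¹ * v) = f
  · obtain ⟨f, hf⟩ := hex
    rw [limC_of_eventually X P ε w (g⁻¹ * v) f hf]
    refine limC_of_eventually X P ε (actOm g w) v f ?_
    filter_upwards [hf] with i hi
    rw [h2 i, hi]
  · rw [limC_of_not X P ε w (g⁻¹ * v) hex]
    refine limC_of_not X P ε (actOm g w) v ?_
    rintro ⟨f, hf⟩
    refine hex ⟨f, ?_⟩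
    filter_upwards [hf] with i hi
    rw [← h2 i, hi]

end Pool.Agent.Helper32.OE
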