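import Pool.Agent.Helper78.OE.GoalsC2

/-!
Project OE (MP_fc0446_an), packet SEC3.
-/

open MeasureTheory Pool.Agent.Helper73.OE Pool.Agent.Helper78.OE
open scoped ENNReal

namespace Pool.Agent.Helper32.OE

variable {H S L : Type} [Group H] (X : Sys H S L) [Fintype S] [Fintype L]

theorem na_succ (M : ℕ) (ε : ℝ) (m : ℕ) (v : H) (p : S) (y : L) (w : St H S L) :
    NA X M ε (m + 1) v p y w = ind (Om X ε w v ((w.1 v).symm y)) *
      NA X M ε m (X.nb v ((w.1 v).symm y)) (X.bar ((w.1 v).symm y)) (X.tau (w.1 v p)) w := by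
  unfold NA
  rw [Finset.mul_sum]
  refine Finset.sum_congr rfl fun k _ ↦ ?_
  rw [← ind_and]
  exact ind_congr Iff.rfl

theorem meas_na (hM : MEAS X) (hL : LOCB X) (ε : ℝ) (M m : ℕ) (v : H) (p : S) (y : L) :
    Measurable (NA X M ε m v p y) := by
  unfold NA
  exact Finset.measurable_sum _ fun k _ ↦ meas_av X hM hL ε M m v p y k

theorem sec3 {ε : ℝ} {μ : Measure (St H S L)} (C : Ctx X ε μ) (hS : SHIFT X ε μ)
    (h : SEC2 X ε μ) : SEC3 X ε μ := by
  intro M' m d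
  induction m with
  | zero =>
    intro v p y G hG
    have h1 := h M' d v p y G hG
    rw [Nat.zero_add]
    exact h1
  | succ m ih =>
    intro v p y G hG
    have h1 := (hS (fun v p y w ↦ NA X (M' + 1) ε m v p y w * NA X (M' + 1) ε (m + d + 2) v p y w)
      (sg ε ^ (m + d + 2) * (((Fintype.card L - 2 : ℕ) : ℝ≥0∞) ^ 2 * pE (M' + 1) ε ^ 4))
      (fun v p y ↦ (meas_na X C.meas C.locb ε _ _ v p y).mul
        (meas_na X C.meas C.locb ε _ _ v p y))).1
      (fun v p y G hG ↦ ih v p y G hG) v p y G hG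
    have e : m + 1 + d + 2 = (m + d + 2) + 1 := by ring
    rw [e]
    calc ∫⁻ w, G w * (NA X (M' + 1) ε (m + 1) v p y w *
            NA X (M' + 1) ε (m + d + 2 + 1) v p y w) ∂μ
        = ∫⁻ w, G w * (ind (Om X ε w v ((w.1 v).symm y)) *
          (NA X (M' + 1) ε m (X.nb v ((w.1 v).symm y)) (X.bar ((w.1 v).symm y))
            (X.tau (w.1 v p)) w *
            NA X (M' + 1) ε (m + d + 2) (X.nb v ((w.1 v).symm y)) (X.bar ((w.1 v).symm y))
              (X.tau (w.1 v p)) w)) ∂μ := by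
          refine lintegral_congr fun w ↦ ?_
          rw [na_succ, na_succ, mul_mul_mul_comm, ind_mul_self]
      _ ≤ sg ε * (sg ε ^ (m + d + 2) *
          (((Fintype.card L - 2 : ℕ) : ℝ≥0∞) ^ 2 * pE (M' + 1) ε ^ 4)) * ∫⁻ w, G w ∂μ := h1
      _ = sg ε ^ (m + d + 2 + 1) *
          (((Fintype.card L - 2 : ℕ) : ℝ≥0∞) ^ 2 * pE (M' + 1) ε ^ 4) * ∫⁻ w, G w ∂μ := by
          rw [pow_succ' (sg ε) (m + d + 2), mul_assoc (sg ε) (sg ε ^ (m + d + 2))]

end Pool.Agent.Helper32.OE
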